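import Pool.Agent.helper80.EN.Spec2

/-! # MP_43ab4e_al, row et:ETF: induction on `InT` -/

set_option autoImplicit false

namespace Pool.Agent.helper80.EN

open Subgroup

universe u

theorem ETF (hEBA : EBA_stmt.{u}) (hESB : ESB_stmt.{u}) (hEEX : EEX_stmt.{u}) (hEUN : EUN_stmt.{u})
    (hETR : ETR_stmt.{u}) : ETF_stmt.{u} := by
  intro G _ h
  induction h with
  | base h => exact hEBA _ h
  | sub f hf _ ih => exact hESB.2.1 _ _ f hf ih
  | ext N h1 _ ih => exact hEEX _ N h1 ih
  | union S hS _ ih => exact hEUN _ S hS ih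
  | tree V Γ hΓ _ he ih => exact hETR _ V Γ hΓ ih he

end Pool.Agent.helper80.EN
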