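import Pool.Agent.helper80.EN.Spec2
import Pool.Agent.helper14.EN.EXA

/-! # MP_43ab4e_al, row et:EXG (adapted from helper14's EXA) -/

set_option autoImplicit false

namespace Pool.Agent.helper80.EN

open Subgroup

universe u

open EXAaux in
theorem EXG (hGRU : GRU_stmt.{u}) (hHPR : HPR_stmt.{u})
    (hTRF : TRF_stmt.{u}) (hBAS : BAS_stmt.{u}) : EXG_stmt.{u} := by
  intro T _ M hMn a hE hMa hQa
  have hmapE : ∀ (L : Type u) [Group L] (f : T →* L) (X : Subgroup T),
      EngelOn (X.map f) (f a) := by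
    intro L _ f X y hy
    obtain ⟨x, hx, rfl⟩ := hy
    obtain ⟨n, hn⟩ := hE x
    refine ⟨n, ?_⟩
    rw [← (hBAS T).2.1 L f x a n, hn, map_one]
  obtain ⟨hHn, hHl, -, -⟩ := hHPR T
  obtain ⟨hRn, hRl, -, -⟩ := hHPR (T ⧸ M)
  haveI := hHn
  haveI := hRn
  set H1 : Subgroup T := HP T ⊓ M with hH1
  haveI hH1n : H1.Normal := inferInstance
  have hH1l : LocNilp H1 := (hTRF T).1 _ _ inf_le_left hHl
  have hH1M : H1 ≤ M := inf_le_right
  -- the centraliser of `M` modulo `H1`
  haveI hMH : (M.map (QuotientGroup.mk' H1)).Normal :=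
    hMn.map _ (QuotientGroup.mk'_surjective H1)
  set C : Subgroup T := (centralizer ((M.map (QuotientGroup.mk' H1) : Subgroup (T ⧸ H1)) :
    Set (T ⧸ H1))).comap (QuotientGroup.mk' H1) with hC
  haveI hCn : C.Normal := inferInstance
  have hCmem : ∀ g : T, g ∈ C ↔ ∀ m ∈ M, QuotientGroup.mk' H1 m * QuotientGroup.mk' H1 g =
      QuotientGroup.mk' H1 g * QuotientGroup.mk' H1 m := by
    intro g
    rw [hC, mem_comap, mem_centralizer_iff]
    constructor
    · intro h m hm
      exact h _ ⟨m, hm, rfl⟩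
    · rintro h _ ⟨m, hm, rfl⟩
      exact h m hm
  have haC : a ∈ C := by
    rw [hCmem]
    intro m hm
    have h1 : com m a ∈ H1 := by
      refine ⟨hMa m hm, ?_⟩
      have h1 : a⁻¹ * m * a ∈ M := by
        have := hMn.conj_mem m hm a⁻¹
        simpa using this
      have h2 : com m a = m⁻¹ * (a⁻¹ * m * a) := by unfold com; group
      show com m a ∈ M
      rw [h2]
      exact M.mul_mem (M.inv_mem hm) h1
    rw [← map_mul, ← map_mul]
    have h2 : QuotientGroup.mk' H1 (a * m) = QuotientGroup.mk' H1 (m * a) := by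
      rw [QuotientGroup.mk'_eq_mk']
      refine ⟨com m a, h1, ?_⟩
      unfold com
      group
    exact h2.symm
  set W : Subgroup T := (HP (T ⧸ M)).comap (QuotientGroup.mk' M) with hW
  haveI hWn : W.Normal := inferInstance
  have haW : a ∈ W := hQa
  have hMW : M ≤ W := by
    intro x hx
    rw [hW, mem_comap]
    have e : QuotientGroup.mk' M x = 1 := by
      rw [QuotientGroup.mk'_apply, QuotientGroup.eq_one_iff]
      exact hx
    rw [e]
    exact one_mem _
  -- `D = C ⊓ W`, `Z = C ⊓ M`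
  set D : Subgroup T := C ⊓ W with hD
  haveI hDn : D.Normal := inferInstance
  have haD : a ∈ D := ⟨haC, haW⟩
  set Z : Subgroup T := C ⊓ M with hZ
  haveI hZn : Z.Normal := inferInstance
  have hZD : Z ≤ D := inf_le_inf le_rfl hMW
  have hDM : D.map (QuotientGroup.mk' M) ≤ HP (T ⧸ M) := by
    refine (map_mono inf_le_right).trans ?_
    rw [hW, map_comap_eq_self_of_surjective (QuotientGroup.mk'_surjective M)]
  haveI hN2n : (Z.map (QuotientGroup.mk' H1)).Normal :=
    hZn.map _ (QuotientGroup.mk'_surjective H1)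
  haveI hD2n : (D.map (QuotientGroup.mk' H1)).Normal :=
    hDn.map _ (QuotientGroup.mk'_surjective H1)
  have hN2l : LocNilp (Z.map (QuotientGroup.mk' H1)) := by
    refine locNilp_comm hTRF _ ?_
    rintro _ ⟨x, hx, rfl⟩ _ ⟨y, hy, rfl⟩
    exact (hCmem y).mp hy.1 x hx.2
  have hD2l : LocNilp ((D.map (QuotientGroup.mk' H1)).map
      (QuotientGroup.mk' (Z.map (QuotientGroup.mk' H1)))) := by
    have h1 := locNilp_range hTRF
      ((QuotientGroup.mk' (Z.map (QuotientGroup.mk' H1))).comp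
        ((QuotientGroup.mk' H1).comp D.subtype))
      ((QuotientGroup.mk' M).comp D.subtype) ?_ ?_
    · have e : ((QuotientGroup.mk' (Z.map (QuotientGroup.mk' H1))).comp
        ((QuotientGroup.mk' H1).comp D.subtype)).range = ((D.map (QuotientGroup.mk' H1)).map
      (QuotientGroup.mk' (Z.map (QuotientGroup.mk' H1)))) := by
        rw [MonoidHom.range_comp, MonoidHom.range_comp, range_subtype]
      rwa [e] at h1
    · intro d hd
      rw [MonoidHom.mem_ker] at hd ⊢
      have h2 : (d : T) ∈ M := by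
        rwa [MonoidHom.comp_apply, QuotientGroup.mk'_apply, QuotientGroup.eq_one_iff] at hd
      have h3 : (d : T) ∈ Z := ⟨d.2.1, h2⟩
      rw [MonoidHom.comp_apply, QuotientGroup.mk'_apply, QuotientGroup.eq_one_iff]
      exact ⟨(d : T), h3, rfl⟩
    · rw [MonoidHom.range_comp, range_subtype]
      exact (hTRF (T ⧸ M)).1 _ _ hDM hRl
  have ha2 : QuotientGroup.mk' H1 a ∈ HP (T ⧸ H1) :=
    hGRU (T ⧸ H1) (Z.map (QuotientGroup.mk' H1)) (D.map (QuotientGroup.mk' H1)) (map_mono hZD)
      hN2l hD2l _ ⟨a, haD, rfl⟩ (hmapE (T ⧸ H1) (QuotientGroup.mk' H1) Z)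
  obtain ⟨hQn, hQl, -, -⟩ := hHPR (T ⧸ H1)
  haveI := hQn
  refine hGRU T H1 ((HP (T ⧸ H1)).comap (QuotientGroup.mk' H1)) ?_ hH1l ?_ a ha2 ?_
  · intro x hx
    rw [mem_comap]
    have e : QuotientGroup.mk' H1 x = 1 := by
      rw [QuotientGroup.mk'_apply, QuotientGroup.eq_one_iff]
      exact hx
    rw [e]
    exact one_mem _
  · rw [map_comap_eq_self_of_surjective (QuotientGroup.mk'_surjective H1)]
    exact hQl
  · intro x _
    exact hE x

end Pool.Agent.helper80.EN
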