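import Pool.Agent.helper80.EN.Spec3
import Pool.Agent.helper80.EN.BAS

/-!
# Row `eb:LEQ`: bounded left Engel elements of `G` and of its Hirsch-Plotkin radical
-/

set_option autoImplicit false

namespace Pool.Agent.helper80.EN

open Subgroup

universe u

private theorem LEQ_icom {G : Type u} [Group G] (x y : G) (n : ℕ) :
    icom (com x y) y n = icom x y (n + 1) := by
  induction n with
  | zero => rfl
  | succ n ih => simp only [icom] at ih ⊢; rw [ih]

private theorem LEQ_coe {G : Type u} [Group G] (H : Subgroup G) (x y : H) (n : ℕ) :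
    ((icom x y n : H) : G) = icom (x : G) (y : G) n := by
  induction n with
  | zero => rfl
  | succ n ih =>
    simp only [icom, com, Subgroup.coe_mul, Subgroup.coe_inv] at ih ⊢
    rw [ih]

theorem LEQ (h1 : ETF_stmt.{u}) (h2 : ESB_stmt.{u}) (h3 : HPR_stmt.{u}) : LEQ_stmt.{u} := by
  intro G _ hG
  constructor
  · rintro a ⟨n, hn⟩
    have ha : a ∈ HP G := h2.2.2 G (h1 G hG) a (fun g => ⟨n, hn g⟩)
    refine ⟨ha, n, fun x => ?_⟩
    apply Subtype.ext
    rw [LEQ_coe]
    exact hn x
  · rintro a ⟨n, hn⟩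
    refine ⟨n + 1, fun x => ?_⟩
    have hN : (HP G).Normal := (h3 G).1
    have hc : com x (a : G) ∈ HP G := by
      have e : com x (a : G) = x⁻¹ * (a : G)⁻¹ * x⁻¹⁻¹ * (a : G) := by
        simp only [com, inv_inv]
      rw [e]
      exact (HP G).mul_mem (hN.conj_mem _ ((HP G).inv_mem a.2) x⁻¹) a.2
    rw [← LEQ_icom]
    have h4 := congrArg (Subtype.val) (hn ⟨com x (a : G), hc⟩)
    rw [LEQ_coe] at h4
    exact h4

end Pool.Agent.helper80.EN
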